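import Mathlib
import Pool.Agent.R700.ASe

/-!
# MP_20b4cf_al, Q1: almost stabilisers of direct decompositions are maximal in `GL(V)`
-/

namespace Pool.Agent.Results.MP_20b4cf_al.AlmostStabiliser

open Pool.Agent.R700.AS

universe u v

/-- `U =_κ W`: `dim ((U + W) / U) + dim ((U + W) / W) < κ`. -/
def AlmostEq {F : Type v} [Field F] {V : Type u} [AddCommGroup V] [Module F V]
    (κ : Cardinal.{u}) (U W : Submodule F V) : Prop :=
  Module.rank F (↥(U ⊔ W) ⧸ U.submoduleOf (U ⊔ W)) +
    Module.rank F (↥(U ⊔ W) ⧸ W.submoduleOf (U ⊔ W)) < κ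

/-- For every infinite cardinal `κ`, every field `F`, every `n ≥ 2` and every decomposition
`V = V_1 ⊕ ... ⊕ V_n` of a `κ`-dimensional space into subspaces of dimension `κ`, the almost
stabiliser of the decomposition is a maximal subgroup of `GL(V)`. -/
theorem result (κ : Cardinal.{u}) (hκ : Cardinal.aleph0 ≤ κ) (F : Type v) [Field F]
    (V : Type u) [AddCommGroup V] [Module F V] (hV : Module.rank F V = κ)
    (n : ℕ) (hn : 2 ≤ n) (Vs : Fin n → Submodule F V) (hdec : DirectSum.IsInternal Vs)
    (hdim : ∀ i, Module.rank F (Vs i) = κ) :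
    ∃ M : Subgroup (LinearMap.GeneralLinearGroup F V),
      (∀ g : LinearMap.GeneralLinearGroup F V, g ∈ M ↔
        ∃ σ : Equiv.Perm (Fin n), ∀ i,
          AlmostEq κ ((Vs i).map (g : V →ₗ[F] V)) (Vs (σ i))) ∧
      IsCoatom M := by
  subst hV
  obtain ⟨τ, τs, h, hrange⟩ := blocks_exist hdec hdim
  refine ⟨mono hκ τ τs, fun g => ?_, mono_coatom hκ h hn⟩
  rw [mono_iff hκ h]
  refine exists_congr fun σ => forall_congr' fun i => ?_
  set G : Module.End F V := (g : V →ₗ[F] V) with hG
  set G' : Module.End F V := ((g⁻¹ : (Module.End F V)ˣ) : Module.End F V) with hG'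
  have hGG : G * G' = 1 := Units.mul_inv g
  have hGG' : G' * G = 1 := Units.inv_mul g
  set e := τ i * τs i with he
  set f := τ (σ i) * τs (σ i) with hf
  have hee : e * e = e := h.ee i
  have hff : f * f = f := h.ee (σ i)
  have hU : (Vs i).map (g : V →ₗ[F] V) = LinearMap.range (G * e * G') := by
    rw [← hrange i]
    ext v
    constructor
    · rintro ⟨_, ⟨w, rfl⟩, rfl⟩
      refine ⟨G w, ?_⟩
      change G (e (G' (G w))) = G (e w)
      rw [← mul_apply' G' G, hGG']
      rfl
    · rintro ⟨w, rfl⟩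
      exact ⟨e (G' w), ⟨G' w, rfl⟩, rfl⟩
  have hid : (G * e * G') * (G * e * G') = G * e * G' := by
    calc (G * e * G') * (G * e * G') = G * e * (G' * G) * e * G' := by simp only [mul_assoc]
      _ = G * (e * e) * G' := by rw [hGG', mul_one]; simp only [mul_assoc]
      _ = _ := by rw [hee]
  have hW : Vs (σ i) = LinearMap.range f := (hrange (σ i)).symm
  unfold AlmostEq
  rw [quot_rank hid f hU (by rw [hU, hW]),
    quot_rank hff (G * e * G') hW (by rw [hU, hW, sup_comm])]
  have hadd : ∀ a b : Cardinal.{u}, a + b < Module.rank F V ↔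
      b < Module.rank F V ∧ a < Module.rank F V := by
    intro a b
    constructor
    · intro hab
      exact ⟨lt_of_le_of_lt (self_le_add_left b a) hab, lt_of_le_of_lt (self_le_add_right a b) hab⟩
    · intro hab
      exact Cardinal.add_lt_of_lt hκ hab.2 hab.1
  rw [hadd, ← pr_eq_zero hκ, ← pr_eq_zero hκ]
  have hg1 : pr hκ G * pr hκ G' = 1 := by rw [← map_mul, hGG, map_one]
  have hg2 : pr hκ G' * pr hκ G = 1 := by rw [← map_mul, hGG', map_one]
  have k1 : pr hκ ((1 - f) * (G * e * G')) = 0 ↔ pr hκ ((1 - f) * G * e) = 0 := by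
    have e1 : pr hκ ((1 - f) * (G * e * G')) = pr hκ ((1 - f) * G * e) * pr hκ G' := by
      rw [← map_mul]; simp only [mul_assoc]
    rw [e1]
    constructor
    · intro h0
      have : pr hκ ((1 - f) * G * e) * pr hκ G' * pr hκ G = 0 := by rw [h0, zero_mul]
      rwa [mul_assoc, hg2, mul_one] at this
    · intro h0; rw [h0, zero_mul]
  have k2 : pr hκ ((1 - G * e * G') * f) = 0 ↔ pr hκ ((1 - e) * G' * f) = 0 := by
    have e1 : pr hκ ((1 - G * e * G') * f) = pr hκ G * pr hκ ((1 - e) * G' * f) := by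
      rw [← map_mul]
      congr 1
      calc (1 - G * e * G') * f = (G * G' - G * e * G') * f := by rw [hGG]
        _ = _ := by noncomm_ring
    rw [e1]
    constructor
    · intro h0
      have : pr hκ G' * (pr hκ G * pr hκ ((1 - e) * G' * f)) = 0 := by rw [h0, mul_zero]
      rwa [← mul_assoc, hg2, one_mul] at this
    · intro h0; rw [h0, mul_zero]
  rw [k1, k2]

end Pool.Agent.Results.MP_20b4cf_al.AlmostStabiliser
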